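import Pool.Agent.Helper38.RS.Goals2
import Pool.Agent.Helper51.SigLeo.Core

/-!
# Project RS (MP_fc6b1e_nt): packet EIG, the eigenspace of the `S`-units
-/

namespace Pool.Agent.Helper9.RS

open NumberField Polynomial Module IsDedekindDomain TensorProduct Pool.Agent.Helper51.SigLeo
  Pool.Agent.Helper38.RS

/-! ### Conjugate primes -/

section conj

variable {K M : Type} [Field K] [Field M] [NumberField M] [Algebra K M]

/-- The prime `δ⁻¹ w`. -/
noncomputable def cw (δ : M ≃ₐ[K] M) (w : HeightOneSpectrum (𝓞 M)) : HeightOneSpectrum (𝓞 M) :=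
  HeightOneSpectrum.comap ((RingOfIntegers.mapRingEquiv (δ : M ≃+* M) : 𝓞 M ≃+* 𝓞 M) :
    𝓞 M →+* 𝓞 M) (RingOfIntegers.mapRingEquiv (δ : M ≃+* M)).surjective w

omit [NumberField M] in
theorem mem_cw_pow (δ : M ≃ₐ[K] M) (w : HeightOneSpectrum (𝓞 M)) (n : ℕ) (r : 𝓞 M) :
    r ∈ (cw δ w).asIdeal ^ n ↔
      RingOfIntegers.mapRingEquiv (δ : M ≃+* M) r ∈ w.asIdeal ^ n := by
  set e : 𝓞 M ≃+* 𝓞 M := RingOfIntegers.mapRingEquiv (δ : M ≃+* M) with he
  have h1 : (cw δ w).asIdeal = w.asIdeal.comap (e : 𝓞 M →+* 𝓞 M) := rfl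
  have h2 : (cw δ w).asIdeal.map (e : 𝓞 M →+* 𝓞 M) = w.asIdeal := by
    rw [h1]
    exact Ideal.map_comap_of_surjective _ e.surjective _
  have h3 : ((cw δ w).asIdeal ^ n).map (e : 𝓞 M →+* 𝓞 M) = w.asIdeal ^ n := by
    rw [Ideal.map_pow, h2]
  rw [← h3]
  constructor
  · intro h
    exact Ideal.mem_map_of_mem _ h
  · intro h
    obtain ⟨x, hx, hxe⟩ := (Ideal.mem_map_iff_of_surjective (e : 𝓞 M →+* 𝓞 M) e.surjective).1 h
    have : x = r := e.injective hxe
    rwa [← this]

theorem intVal_cw (δ : M ≃ₐ[K] M) (w : HeightOneSpectrum (𝓞 M)) (r : 𝓞 M) :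
    (cw δ w).intValuation r =
      w.intValuation (RingOfIntegers.mapRingEquiv (δ : M ≃+* M) r) := by
  set e : 𝓞 M ≃+* 𝓞 M := RingOfIntegers.mapRingEquiv (δ : M ≃+* M) with he
  rcases eq_or_ne r 0 with rfl | hr
  · rw [map_zero, map_zero, map_zero]
  have her : e r ≠ 0 := by
    rw [Ne, map_eq_zero_iff e e.injective]
    exact hr
  have key : ∀ n : ℕ, (cw δ w).intValuation r ≤ WithZero.exp (-(n : ℤ)) ↔
      w.intValuation (e r) ≤ WithZero.exp (-(n : ℤ)) := by
    intro n
    rw [HeightOneSpectrum.intValuation_le_pow_iff_mem,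
      HeightOneSpectrum.intValuation_le_pow_iff_mem]
    exact mem_cw_pow δ w n r
  rw [HeightOneSpectrum.intValuation_if_neg _ hr, HeightOneSpectrum.intValuation_if_neg _ her]
    at key ⊢
  apply le_antisymm
  · exact (key _).2 le_rfl
  · exact (key _).1 le_rfl

theorem val_cw (δ : M ≃ₐ[K] M) (w : HeightOneSpectrum (𝓞 M)) (y : M) :
    (cw δ w).valuation M y = w.valuation M (δ y) := by
  obtain ⟨a, b, hb, rfl⟩ := IsFractionRing.div_surjective (A := 𝓞 M) y
  rw [map_div₀, map_div₀, map_div₀]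
  have h : ∀ r : 𝓞 M, (cw δ w).valuation M (algebraMap (𝓞 M) M r) =
      w.valuation M (δ (algebraMap (𝓞 M) M r)) := by
    intro r
    have h1 : δ (algebraMap (𝓞 M) M r) =
        algebraMap (𝓞 M) M (RingOfIntegers.mapRingEquiv (δ : M ≃+* M) r) := rfl
    rw [h1, HeightOneSpectrum.valuation_of_algebraMap, HeightOneSpectrum.valuation_of_algebraMap]
    exact intVal_cw δ w r
  rw [h a, h b]

theorem eq_of_val {v w : HeightOneSpectrum (𝓞 M)}
    (h : ∀ y : M, v.valuation M y = w.valuation M y) : v = w := by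
  apply HeightOneSpectrum.ext
  ext r
  rw [← HeightOneSpectrum.valuation_lt_one_iff_mem (K := M),
    ← HeightOneSpectrum.valuation_lt_one_iff_mem (K := M), h]

end conj

/-! ### The eigenspace of a permutation -/

theorem perm_eig {Y : Type} [Fintype Y] [DecidableEq Y] (σ : Equiv.Perm Y) {m : ℕ} {ζ : ℂ}
    (hζ0 : ζ ≠ 0) (hζ : ∀ e : ℕ, 0 < e → e < m → ζ ^ e ≠ 1) (W : Submodule ℂ (Y → ℂ))
    (hW : ∀ f ∈ W, ∀ y, f (σ y) = ζ * f y) (F : Finset Y)
    (hF : ∀ y, y ∈ F ↔ ∀ e : ℕ, 0 < e → e < m → (σ ^ e) y ≠ y) :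
    m * finrank ℂ W ≤ F.card := by
  classical
  -- powers
  have hpow : ∀ f ∈ W, ∀ (n : ℕ) (y : Y), f ((σ ^ n) y) = ζ ^ n * f y := by
    intro f hf n
    induction n with
    | zero => intro y; simp
    | succ n ih =>
      intro y
      rw [pow_succ, Equiv.Perm.mul_apply, ih, hW f hf]
      ring
  have hzpow : ∀ f ∈ W, ∀ (n : ℤ) (y : Y), f ((σ ^ n) y) = ζ ^ n * f y := by
    intro f hf n y
    rcases Int.eq_nat_or_neg n with ⟨k, rfl | rfl⟩
    · rw [zpow_natCast, zpow_natCast]
      exact hpow f hf k y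
    · have h1 := hpow f hf k ((σ ^ (-(k : ℤ))) y)
      rw [← Equiv.Perm.mul_apply, ← zpow_natCast, ← zpow_add, add_neg_cancel, zpow_zero,
        Equiv.Perm.one_apply] at h1
      have h2 : ζ ^ (-(k : ℤ)) * ζ ^ k = 1 := by
        rw [zpow_neg, zpow_natCast]
        exact inv_mul_cancel₀ (pow_ne_zero k hζ0)
      have h3 : f y = ζ ^ k * f ((σ ^ (-(k : ℤ))) y) := h1
      calc f ((σ ^ (-(k : ℤ))) y) = (ζ ^ (-(k : ℤ)) * ζ ^ k) * f ((σ ^ (-(k : ℤ))) y) := by
            rw [h2, one_mul]
        _ = ζ ^ (-(k : ℤ)) * f y := by rw [mul_assoc, ← h3]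
  have hvan : ∀ f ∈ W, ∀ y, y ∉ F → f y = 0 := by
    intro f hf y hy
    rw [hF] at hy
    push Not at hy
    obtain ⟨e, h1, h2, h3⟩ := hy
    have h4 := hpow f hf e y
    rw [h3] at h4
    have h5 : (ζ ^ e - 1) * f y = 0 := by rw [sub_mul, ← h4]; ring
    rcases mul_eq_zero.1 h5 with h6 | h6
    · exact absurd (sub_eq_zero.1 h6) (hζ e h1 h2)
    · exact h6
  let s : Setoid Y := Equiv.Perm.SameCycle.setoid σ
  let cl : Y → Quotient s := Quotient.mk s
  have hcl : ∀ a b, cl a = cl b → σ.SameCycle a b := fun a b h => Quotient.exact h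
  have hcl' : ∀ a b, σ.SameCycle a b → cl a = cl b := fun a b h => Quotient.sound h
  let R : Finset (Quotient s) := F.image cl
  -- the count
  have hcount : m * R.card ≤ F.card := by
    apply Finset.mul_card_image_le_card
    intro c hc
    obtain ⟨y, hy, rfl⟩ := Finset.mem_image.1 hc
    have hy' := (hF y).1 hy
    have hinj : Set.InjOn (fun j : ℕ => (σ ^ j) y) (Finset.range m : Set ℕ) := by
      intro i hi j hj hij
      simp only at hij
      rw [Finset.coe_range, Set.mem_Iio] at hi hj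
      have aux : ∀ i j : ℕ, i < j → j < m → (σ ^ i) y = (σ ^ j) y → False := by
        intro i j h1 h2 h3
        have h4 : (σ ^ j) y = (σ ^ i) ((σ ^ (j - i)) y) := by
          rw [← Equiv.Perm.mul_apply, ← pow_add]
          congr 2
          omega
        rw [h4] at h3
        exact hy' (j - i) (by omega) (by omega) ((σ ^ i).injective h3).symm
      rcases lt_trichotomy i j with h | h | h
      · exact (aux i j h hj hij).elim
      · exact h
      · exact (aux j i h hi hij.symm).elim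
    calc m = (Finset.range m).card := (Finset.card_range m).symm
      _ = ((Finset.range m).image fun j : ℕ => (σ ^ j) y).card :=
        (Finset.card_image_of_injOn hinj).symm
      _ ≤ _ := by
        apply Finset.card_le_card
        intro x hx
        obtain ⟨j, -, rfl⟩ := Finset.mem_image.1 hx
        rw [Finset.mem_filter, hF]
        refine ⟨?_, ?_⟩
        · intro e h1 h2 h3
          apply hy' e h1 h2
          rw [← Equiv.Perm.mul_apply, ← pow_add, add_comm, pow_add, Equiv.Perm.mul_apply] at h3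
          exact (σ ^ j).injective h3
        · apply hcl'
          exact (Equiv.Perm.sameCycle_pow_left (f := σ) (n := j)).2
            (Equiv.Perm.SameCycle.refl σ y)
  -- the injection
  have hinj : finrank ℂ W ≤ R.card := by
    let φ : W →ₗ[ℂ] (R → ℂ) := LinearMap.pi fun c =>
      (LinearMap.proj (R := ℂ) (φ := fun _ : Y => ℂ) (Quotient.out (c : Quotient s))).comp W.subtype
    have hφ : Function.Injective φ := by
      rw [← LinearMap.ker_eq_bot, LinearMap.ker_eq_bot']
      rintro ⟨f, hf⟩ h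
      apply Subtype.ext
      funext y
      change f y = 0
      by_cases hy : y ∈ F
      · have h1 : cl y ∈ R := Finset.mem_image_of_mem _ hy
        have h2 := congrFun h ⟨cl y, h1⟩
        change f (Quotient.out (cl y)) = 0 at h2
        have h3 : σ.SameCycle (Quotient.out (cl y)) y := hcl _ _ (Quotient.out_eq (cl y))
        obtain ⟨n, hn⟩ := h3
        rw [← hn, hzpow f hf, h2, mul_zero]
      · exact hvan f hf y hy
    have := LinearMap.finrank_le_finrank_of_injective hφ
    rwa [finrank_fintype_fun_eq_card, Fintype.card_coe] at this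
  calc m * finrank ℂ W ≤ m * R.card := Nat.mul_le_mul_left m hinj
    _ ≤ F.card := hcount

/-! ### Dirichlet's theorem -/

section arch

variable {H : Type} [Field H] [NumberField H]

/-- The logarithm of the absolute value at `w` of an element of a subgroup of `Hˣ`. -/
noncomputable def lw (w : InfinitePlace H) : Additive (𝓞 H)ˣ →+ ℂ :=
  AddMonoidHom.mk' (fun u ↦ ((Real.log (w (((u.toMul : (𝓞 H)ˣ) : 𝓞 H) : H)) : ℝ) : ℂ))
    fun a b ↦ by
      have h : ∀ u : (𝓞 H)ˣ, w ((u : 𝓞 H) : H) ≠ 0 := fun u ↦ by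
        rw [Ne, map_eq_zero]
        exact Units.coe_ne_zero u
      have e : w ((((a + b).toMul : (𝓞 H)ˣ) : 𝓞 H) : H) =
          w (((a.toMul : (𝓞 H)ˣ) : 𝓞 H) : H) * w (((b.toMul : (𝓞 H)ˣ) : 𝓞 H) : H) := by
        rw [← map_mul]
        rfl
      rw [e, Real.log_mul (h _) (h _)]
      push_cast
      rfl

omit [NumberField H] in
theorem lw_apply (w : InfinitePlace H) (u : (𝓞 H)ˣ) :
    lw w (Additive.ofMul u) = ((Real.log (w ((u : 𝓞 H) : H)) : ℝ) : ℂ) := rfl

theorem arch (x : ℂ ⊗[ℤ] Additive (𝓞 H)ˣ) (hx : ∀ w : InfinitePlace H, extHom (lw w) x = 0) :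
    x = 0 := by
  have hspan := span_fundSystem H ℂ
  have hx' : x ∈ Submodule.span ℂ (Set.range fun i : Fin (Units.rank H) ↦
      ((1 : ℂ) ⊗ₜ[ℤ] Additive.ofMul (Units.fundSystem H i) : ℂ ⊗[ℤ] Additive (𝓞 H)ˣ)) := by
    rw [hspan]; exact Submodule.mem_top
  obtain ⟨c, hc⟩ := (Submodule.mem_span_range_iff_exists_fun ℂ).mp hx'
  have h1 : ∀ w : InfinitePlace H,
      ∑ i, c i * ((Real.log (w ((Units.fundSystem H i : 𝓞 H) : H)) : ℝ) : ℂ) = 0 := by
    intro w
    have h2 := hx w
    rw [← hc, map_sum] at h2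
    simp only [map_smul, extHom_tmul, lw_apply, one_mul, smul_eq_mul] at h2
    exact h2
  have hli : LinearIndependent ℝ
      (fun i ↦ Units.logEmbedding H (Additive.ofMul (Units.fundSystem H i))) :=
    Units.isMaxRank_fundSystem H
  have hre : ∀ i, (c i).re = 0 := by
    refine Fintype.linearIndependent_iff.mp hli (fun i ↦ (c i).re) ?_
    funext w
    have h3 := congrArg Complex.re (h1 w.1)
    rw [Complex.re_sum] at h3
    simp only [Complex.re_mul_ofReal, Complex.zero_re] at h3
    rw [Finset.sum_apply]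
    simp only [Pi.smul_apply, Units.dirichletUnitTheorem.logEmbedding_component, smul_eq_mul,
      Pi.zero_apply]
    have h4 : ∑ i, (c i).re * ((InfinitePlace.mult w.1 : ℝ) *
        Real.log (w.1 ((Units.fundSystem H i : 𝓞 H) : H))) =
        (InfinitePlace.mult w.1 : ℝ) * ∑ i, (c i).re *
          Real.log (w.1 ((Units.fundSystem H i : 𝓞 H) : H)) := by
      rw [Finset.mul_sum]
      exact Finset.sum_congr rfl fun i _ ↦ by ring
    rw [h4, h3, mul_zero]
  have him : ∀ i, (c i).im = 0 := by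
    refine Fintype.linearIndependent_iff.mp hli (fun i ↦ (c i).im) ?_
    funext w
    have h3 := congrArg Complex.im (h1 w.1)
    rw [Complex.im_sum] at h3
    simp only [Complex.im_mul_ofReal, Complex.zero_im] at h3
    rw [Finset.sum_apply]
    simp only [Pi.smul_apply, Units.dirichletUnitTheorem.logEmbedding_component, smul_eq_mul,
      Pi.zero_apply]
    have h4 : ∑ i, (c i).im * ((InfinitePlace.mult w.1 : ℝ) *
        Real.log (w.1 ((Units.fundSystem H i : 𝓞 H) : H))) =
        (InfinitePlace.mult w.1 : ℝ) * ∑ i, (c i).im *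
          Real.log (w.1 ((Units.fundSystem H i : 𝓞 H) : H)) := by
      rw [Finset.mul_sum]
      exact Finset.sum_congr rfl fun i _ ↦ by ring
    rw [h4, h3, mul_zero]
  have hc0 : ∀ i, c i = 0 := fun i ↦ Complex.ext (hre i) (him i)
  rw [← hc]
  exact Finset.sum_eq_zero fun i _ ↦ by rw [hc0 i, zero_smul]

end arch

/-! ### Linear extensions -/

section ext

variable {A B : Type} [AddCommGroup A] [AddCommGroup B]

theorem extHom_lTensor (f : A →ₗ[ℤ] B) (l : B →+ ℂ) (x : ℂ ⊗[ℤ] A) :
    extHom l (f.lTensor ℂ x) = extHom (l.comp f.toAddMonoidHom) x := by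
  induction x using TensorProduct.induction_on with
  | zero => simp
  | tmul c m => simp
  | add x y hx hy => rw [map_add, map_add, hx, hy, map_add]

theorem extHom_extEnd (D : A →+ A) (l l' : A →+ ℂ) (h : ∀ a, l (D a) = l' a) (x : ℂ ⊗[ℤ] A) :
    extHom l (extEnd D x) = extHom l' x := by
  induction x using TensorProduct.induction_on with
  | zero => simp
  | tmul c m => simp [h]
  | add x y hx hy => rw [map_add, map_add, hx, hy, map_add]

/-- If all the coordinates vanish then `g_ℂ x = 0`. -/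
theorem lTensor_zero {Z : Type} [Fintype Z] [DecidableEq Z] (g : A →ₗ[ℤ] (Z → ℤ))
    (l : Z → (A →+ ℂ)) (hl : ∀ z a, l z a = (g a z : ℂ)) (x : ℂ ⊗[ℤ] A)
    (hx : ∀ z, extHom (l z) x = 0) : g.lTensor ℂ x = 0 := by
  have key : ∀ (x : ℂ ⊗[ℤ] A) (z : Z),
      TensorProduct.piScalarRight ℤ ℂ ℂ Z (g.lTensor ℂ x) z = extHom (l z) x := by
    intro x z
    induction x using TensorProduct.induction_on with
    | zero => simp
    | tmul c m =>
      rw [LinearMap.lTensor_tmul, extHom_tmul, hl]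
      simp [mul_comm]
    | add x y hx hy => rw [map_add, map_add, Pi.add_apply, hx, hy, map_add]
  apply (TensorProduct.piScalarRight ℤ ℂ ℂ Z).injective
  rw [map_zero]
  funext z
  rw [key, hx z]
  rfl

end ext

/-! ### The group of `S`-units -/

section sunit

variable {K M : Type} [Field K] [Field M] [NumberField M] [Algebra K M]
  {S : Set (HeightOneSpectrum (𝓞 M))}

theorem mem_unit (x : Mˣ) : x ∈ S.unit M ↔ ∀ v ∉ S, v.valuation M (x : M) = 1 := Iff.rfl

theorem cw_mem (hst : ∀ w ∈ S, ∀ v, ConjP K v w → v ∈ S) (δ : M ≃ₐ[K] M)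
    {w : HeightOneSpectrum (𝓞 M)} (hw : w ∈ S) : cw δ w ∈ S := by
  apply hst w hw
  refine ⟨δ.symm, fun y => ?_⟩
  rw [val_cw, AlgEquiv.apply_symm_apply]

theorem cw_cw_symm (δ : M ≃ₐ[K] M) (w : HeightOneSpectrum (𝓞 M)) : cw δ (cw δ.symm w) = w := by
  apply eq_of_val
  intro y
  rw [val_cw, val_cw, AlgEquiv.symm_apply_apply]

theorem cw_symm_cw (δ : M ≃ₐ[K] M) (w : HeightOneSpectrum (𝓞 M)) : cw δ.symm (cw δ w) = w := by
  apply eq_of_val
  intro y
  rw [val_cw, val_cw, AlgEquiv.apply_symm_apply]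

theorem map_mem_unit (hst : ∀ w ∈ S, ∀ v, ConjP K v w → v ∈ S) (δ : M ≃ₐ[K] M)
    {x : Mˣ} (hx : x ∈ S.unit M) : Units.map ((δ : M →+* M) : M →* M) x ∈ S.unit M := by
  rw [mem_unit] at hx ⊢
  intro v hv
  have h1 : cw δ v ∉ S := fun h => hv (by
    have := cw_mem hst δ.symm h
    rwa [cw_symm_cw] at this)
  have h2 := hx _ h1
  rw [val_cw] at h2
  exact h2

/-- The action of `δ` on the `S`-units. -/
noncomputable def DS (hst : ∀ w ∈ S, ∀ v, ConjP K v w → v ∈ S) (δ : M ≃ₐ[K] M) :
    Additive (S.unit M) →+ Additive (S.unit M) :=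
  AddMonoidHom.mk' (fun x => Additive.ofMul
      (⟨Units.map ((δ : M →+* M) : M →* M) ((x.toMul : S.unit M) : Mˣ),
        map_mem_unit hst δ (x.toMul : S.unit M).2⟩ : S.unit M)) fun a b => by
    apply Additive.toMul.injective
    apply Subtype.ext
    exact map_mul (Units.map ((δ : M →+* M) : M →* M)) _ _

theorem DS_coe (hst : ∀ w ∈ S, ∀ v, ConjP K v w → v ∈ S) (δ : M ≃ₐ[K] M)
    (x : Additive (S.unit M)) :
    ((((DS hst δ x).toMul : S.unit M) : Mˣ) : M) = δ (((x.toMul : S.unit M) : Mˣ) : M) := rfl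

theorem val_unit (v : HeightOneSpectrum (𝓞 M)) (u : (𝓞 M)ˣ) :
    v.valuation M (algebraMap (𝓞 M) M (u : 𝓞 M)) = 1 := by
  rw [HeightOneSpectrum.valuation_eq_one_iff_notMem]
  intro h
  exact v.isPrime.ne_top (Ideal.eq_top_of_isUnit_mem _ h u.isUnit)

/-- The units in the group of `S`-units. -/
noncomputable def fU (S : Set (HeightOneSpectrum (𝓞 M))) :
    Additive (𝓞 M)ˣ →ₗ[ℤ] Additive (S.unit M) :=
  AddMonoidHom.toIntLinearMap (AddMonoidHom.mk' (fun u => Additive.ofMul
      (⟨Units.map (algebraMap (𝓞 M) M : 𝓞 M →* M) u.toMul, fun v _ => val_unit v u.toMul⟩ :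
        S.unit M)) fun a b => by
    apply Additive.toMul.injective
    apply Subtype.ext
    exact map_mul (Units.map (algebraMap (𝓞 M) M : 𝓞 M →* M)) _ _)

theorem ordv_mul (v : HeightOneSpectrum (𝓞 M)) {x y : M} (hx : x ≠ 0) (hy : y ≠ 0) :
    ordv v (x * y) = ordv v x + ordv v y := by
  unfold ordv
  rw [map_mul, WithZero.log_mul ((Valuation.ne_zero_iff _).2 hx) ((Valuation.ne_zero_iff _).2 hy)]
  ring

theorem ordv_eq_zero (v : HeightOneSpectrum (𝓞 M)) {x : M} (hx : x ≠ 0) (h : ordv v x = 0) :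
    v.valuation M x = 1 := by
  unfold ordv at h
  have h1 : WithZero.log (v.valuation M x) = 0 := by omega
  have h2 : v.valuation M x ≠ 0 := (Valuation.ne_zero_iff _).2 hx
  rw [← WithZero.exp_log h2, h1]
  rfl

/-- The valuations at the primes of `S`. -/
noncomputable def gS (S : Set (HeightOneSpectrum (𝓞 M))) :
    Additive (S.unit M) →ₗ[ℤ] (S → ℤ) :=
  AddMonoidHom.toIntLinearMap (AddMonoidHom.mk'
    (fun x w => ordv (w : HeightOneSpectrum (𝓞 M)) (((x.toMul : S.unit M) : Mˣ) : M))
    fun a b => by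
      funext w
      exact ordv_mul _ (Units.ne_zero _) (Units.ne_zero _))

theorem gS_apply (x : Additive (S.unit M)) (w : S) :
    gS S x w = ordv (w : HeightOneSpectrum (𝓞 M)) (((x.toMul : S.unit M) : Mˣ) : M) := rfl

theorem exact_fg : Function.Exact (fU S) (gS S) := by
  intro x
  constructor
  · intro h
    have hx0 : (((x.toMul : S.unit M) : Mˣ) : M) ≠ 0 := Units.ne_zero _
    have hval : ∀ v : HeightOneSpectrum (𝓞 M),
        v.valuation M (((x.toMul : S.unit M) : Mˣ) : M) = 1 := by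
      intro v
      by_cases hv : v ∈ S
      · apply ordv_eq_zero v hx0
        exact congrFun h ⟨v, hv⟩
      · exact (x.toMul : S.unit M).2 v hv
    obtain ⟨a, ha⟩ := HeightOneSpectrum.mem_integers_of_valuation_le_one M
      (((x.toMul : S.unit M) : Mˣ) : M) fun v => (hval v).le
    obtain ⟨b, hb⟩ := HeightOneSpectrum.mem_integers_of_valuation_le_one M
      ((((x.toMul : S.unit M) : Mˣ) : M)⁻¹) fun v => by rw [map_inv₀, hval v, inv_one]
    have hab : a * b = 1 := by
      apply FaithfulSMul.algebraMap_injective (𝓞 M) M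
      rw [map_mul, ha, hb, map_one, mul_inv_cancel₀ hx0]
    refine ⟨Additive.ofMul (Units.mkOfMulEqOne a b hab), ?_⟩
    apply Additive.toMul.injective
    apply Subtype.ext
    apply Units.ext
    exact ha
  · rintro ⟨u, rfl⟩
    funext w
    rw [gS_apply]
    change ordv (w : HeightOneSpectrum (𝓞 M)) (algebraMap (𝓞 M) M (u.toMul : 𝓞 M)) = 0
    unfold ordv
    rw [val_unit]
    simp

/-- The logarithm at an infinite place. -/
noncomputable def lS (S : Set (HeightOneSpectrum (𝓞 M))) (w : InfinitePlace M) :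
    Additive (S.unit M) →+ ℂ :=
  AddMonoidHom.mk' (fun x ↦ ((Real.log (w (((x.toMul : S.unit M) : Mˣ) : M)) : ℝ) : ℂ))
    fun a b ↦ by
      have h : ∀ u : Mˣ, w (u : M) ≠ 0 := fun u ↦ by
        rw [Ne, map_eq_zero]
        exact Units.ne_zero u
      have e : w ((((a + b).toMul : S.unit M) : Mˣ) : M) =
          w (((a.toMul : S.unit M) : Mˣ) : M) * w (((b.toMul : S.unit M) : Mˣ) : M) := by
        rw [← map_mul]
        rfl
      rw [e, Real.log_mul (h _) (h _)]
      push_cast
      rfl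

/-- The valuation at a prime of `S`, in `ℂ`. -/
noncomputable def oS (S : Set (HeightOneSpectrum (𝓞 M))) (w : S) :
    Additive (S.unit M) →+ ℂ :=
  AddMonoidHom.mk' (fun x ↦ ((gS S x w : ℤ) : ℂ)) fun a b ↦ by
    rw [map_add]
    push_cast [Pi.add_apply]
    rfl

/-- All the coordinates. -/
noncomputable def cS (S : Set (HeightOneSpectrum (𝓞 M))) :
    InfinitePlace M ⊕ S → (Additive (S.unit M) →+ ℂ) :=
  Sum.elim (lS S) (oS S)

theorem inj_coord (hS : S.Finite) (x : ℂ ⊗[ℤ] Additive (S.unit M))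
    (hx : ∀ y, extHom (cS S y) x = 0) : x = 0 := by
  classical
  have : Fintype S := hS.fintype
  have h1 : (gS S).lTensor ℂ x = 0 :=
    lTensor_zero (gS S) (oS S) (fun z a => rfl) x fun z => hx (Sum.inr z)
  have hex : Function.Exact ((fU S).lTensor ℂ) ((gS S).lTensor ℂ) :=
    Module.Flat.lTensor_exact ℂ exact_fg
  obtain ⟨u, rfl⟩ := (hex x).1 h1
  have h2 : u = 0 := by
    apply arch
    intro w
    have h3 := hx (Sum.inl w)
    rw [extHom_lTensor] at h3
    exact h3
  rw [h2, map_zero]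

/-- The permutation of the coordinates. -/
noncomputable def perm (hst : ∀ w ∈ S, ∀ v, ConjP K v w → v ∈ S) (δ : M ≃ₐ[K] M) :
    Equiv.Perm (InfinitePlace M ⊕ S) :=
  Equiv.sumCongr
    { toFun := fun w => w.comap (δ : M →+* M)
      invFun := fun w => w.comap (δ.symm : M →+* M)
      left_inv := fun w => by
        ext y
        change w (δ (δ.symm y)) = w y
        rw [AlgEquiv.apply_symm_apply]
      right_inv := fun w => by
        ext y
        change w (δ.symm (δ y)) = w y
        rw [AlgEquiv.symm_apply_apply] }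
    { toFun := fun w => ⟨cw δ w, cw_mem hst δ w.2⟩
      invFun := fun w => ⟨cw δ.symm w, cw_mem hst δ.symm w.2⟩
      left_inv := fun w => Subtype.ext (cw_symm_cw δ w)
      right_inv := fun w => Subtype.ext (cw_cw_symm δ w) }

theorem coord_perm (hst : ∀ w ∈ S, ∀ v, ConjP K v w → v ∈ S) (δ : M ≃ₐ[K] M)
    (y : InfinitePlace M ⊕ S) (a : Additive (S.unit M)) :
    cS S y (DS hst δ a) = cS S (perm hst δ y) a := by
  rcases y with w | w
  · rfl
  · change ((gS S (DS hst δ a) w : ℤ) : ℂ) = ((gS S a ⟨cw δ w, cw_mem hst δ w.2⟩ : ℤ) : ℂ)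
    rw [gS_apply, gS_apply, DS_coe]
    unfold ordv
    rw [val_cw]

theorem perm_pow_inr (hst : ∀ w ∈ S, ∀ v, ConjP K v w → v ∈ S) (δ : M ≃ₐ[K] M) (w : S)
    (e : ℕ) : ∃ w' : S, (perm hst δ ^ e) (Sum.inr w) = Sum.inr w' ∧
      ∀ y : M, (w' : HeightOneSpectrum (𝓞 M)).valuation M y =
        (w : HeightOneSpectrum (𝓞 M)).valuation M ((δ ^ e : M ≃ₐ[K] M) y) := by
  induction e with
  | zero => exact ⟨w, rfl, fun y => rfl⟩
  | succ e ih =>
    obtain ⟨w', h1, h2⟩ := ih
    refine ⟨⟨cw δ w', cw_mem hst δ w'.2⟩, ?_, fun y => ?_⟩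
    · rw [pow_succ', Equiv.Perm.mul_apply, h1]
      rfl
    · change (cw δ w').valuation M y = _
      rw [val_cw, h2, pow_succ]
      rfl

end sunit

theorem s_eig : S_EIG := by
  intro K M _ _ _ _ _ _ _ m d s₀ δ hδ hm hd hm0 S hS hst hfree ζ' hζ'
  classical
  have : Fintype S := hS.fintype
  have : Module.Finite ℤ (Additive (S.unit M)) := by
    have h1 : LinearMap.range (fU S) = LinearMap.ker (gS S) := (exact_fg (S := S)).linearMap_ker_eq.symm
    have h2 : IsNoetherian ℤ (Additive (S.unit M)) := isNoetherian_of_range_eq_ker _ _ h1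
    infer_instance
  refine ⟨DS hst δ, fun x => rfl, this, ?_⟩
  let Λ : (ℂ ⊗[ℤ] Additive (S.unit M)) →ₗ[ℂ] (InfinitePlace M ⊕ S → ℂ) :=
    LinearMap.pi fun y => extHom (cS S y)
  have hΛ : Function.Injective Λ := by
    rw [← LinearMap.ker_eq_bot, LinearMap.ker_eq_bot']
    intro x hx
    exact inj_coord hS x fun y => congrFun hx y
  set E := LinearMap.ker ((extEnd (DS hst δ) : (ℂ ⊗[ℤ] Additive (S.unit M)) →ₗ[ℂ]
      (ℂ ⊗[ℤ] Additive (S.unit M))) - ζ' • LinearMap.id) with hE
  have hfin : finrank ℂ E = finrank ℂ (E.map Λ) :=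
    (Submodule.equivMapOfInjective Λ hΛ E).finrank_eq
  rw [hfin]
  let F : Finset (InfinitePlace M ⊕ S) := Finset.univ.filter fun y =>
    ∀ e : ℕ, 0 < e → e < m → (perm hst δ ^ e) y ≠ y
  have hmain := perm_eig (perm hst δ) (hζ'.ne_zero hm0.ne')
    (fun e h1 h2 => hζ'.pow_ne_one_of_pos_of_lt h1.ne' h2) (E.map Λ) (by
      rintro f ⟨x, hx, rfl⟩ y
      have hx' : extEnd (DS hst δ) x = ζ' • x := by
        have := LinearMap.mem_ker.1 hx
        rw [LinearMap.sub_apply, sub_eq_zero] at this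
        exact this
      change extHom (cS S (perm hst δ y)) x = ζ' * extHom (cS S y) x
      rw [← extHom_extEnd (DS hst δ) (cS S y) (cS S (perm hst δ y)) (coord_perm hst δ y), hx',
        map_smul, smul_eq_mul]) F (by
      intro y
      simp only [F, Finset.mem_filter, Finset.mem_univ, true_and])
  -- the infinite places
  have hMc : IsTotallyComplex M := isTotallyComplex_of_algebra K M
  have hinf : Fintype.card (InfinitePlace M) = m * d := by
    have h1 := IsTotallyComplex.finrank M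
    have h2 : Fintype.card (InfinitePlace M) =
        InfinitePlace.nrRealPlaces M + InfinitePlace.nrComplexPlaces M :=
      InfinitePlace.card_eq_nrRealPlaces_add_nrComplexPlaces M
    rw [IsTotallyComplex.nrRealPlaces_eq_zero, zero_add] at h2
    have h3 : finrank ℚ K * finrank K M = finrank ℚ M := finrank_mul_finrank ℚ K M
    rw [hd, hm, h1] at h3
    rw [h2]
    have h4 : 2 * (m * d) = 2 * InfinitePlace.nrComplexPlaces M := by rw [← h3]; ring
    omega
  -- the generator
  have hgen : ∀ g : M ≃ₐ[K] M, ∃ e < m, δ ^ e = g := by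
    intro g
    have h1 : Subgroup.zpowers δ = ⊤ := by
      apply Subgroup.eq_top_of_card_eq
      rw [Nat.card_zpowers, hδ, ← hm, IsGalois.card_aut_eq_finrank]
    have h2 : g ∈ Subgroup.zpowers δ := by rw [h1]; trivial
    rw [mem_zpowers_iff_mem_range_orderOf, Finset.mem_image] at h2
    obtain ⟨e, he, h3⟩ := h2
    rw [Finset.mem_range, hδ] at he
    exact ⟨e, he, h3⟩
  have hFcard : F.card ≤ m * d + m * s₀ := by
    let F₂ : Finset S := Finset.univ.filter fun w => FreeP K (w : HeightOneSpectrum (𝓞 M))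
    have hsub : F ⊆ Finset.univ.image Sum.inl ∪ F₂.image Sum.inr := by
      intro y hy
      rw [Finset.mem_union]
      rcases y with w | w
      · exact Or.inl (Finset.mem_image_of_mem _ (Finset.mem_univ _))
      · refine Or.inr (Finset.mem_image_of_mem _ ?_)
        rw [Finset.mem_filter]
        refine ⟨Finset.mem_univ _, ?_⟩
        intro g hg
        obtain ⟨e, he, rfl⟩ := hgen g
        rcases Nat.eq_zero_or_pos e with rfl | he0
        · exact pow_zero δ
        · exfalso
          have h1 := (Finset.mem_filter.1 hy).2 e he0 he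
          apply h1
          obtain ⟨w', h2, h3⟩ := perm_pow_inr hst δ w e
          rw [h2]
          congr 1
          apply Subtype.ext
          apply eq_of_val
          intro y
          rw [h3, hg]
    have hF₂ : F₂.card = m * s₀ := by
      rw [← hfree]
      have h1 : {w ∈ S | FreeP K w} = ((F₂.map (Function.Embedding.subtype _) :
          Finset (HeightOneSpectrum (𝓞 M))) : Set (HeightOneSpectrum (𝓞 M))) := by
        ext w
        simp only [F₂, Finset.coe_map, Set.mem_image, Finset.mem_coe, Finset.mem_filter,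
          Finset.mem_univ, true_and, Function.Embedding.subtype_apply, Subtype.exists]
        constructor
        · rintro ⟨h2, h3⟩
          exact ⟨w, h2, h3, rfl⟩
        · rintro ⟨w', h2, h3, rfl⟩
          exact ⟨h2, h3⟩
      rw [h1, Set.ncard_coe_finset, Finset.card_map]
    calc F.card ≤ (Finset.univ.image Sum.inl ∪ F₂.image Sum.inr :
          Finset (InfinitePlace M ⊕ S)).card := Finset.card_le_card hsub
      _ ≤ (Finset.univ.image Sum.inl : Finset (InfinitePlace M ⊕ S)).card +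
          (F₂.image Sum.inr : Finset (InfinitePlace M ⊕ S)).card := Finset.card_union_le _ _
      _ ≤ Fintype.card (InfinitePlace M) + F₂.card :=
          Nat.add_le_add Finset.card_image_le Finset.card_image_le
      _ = m * d + m * s₀ := by rw [hinf, hF₂]
  have h5 : m * finrank ℂ (E.map Λ) ≤ m * (d + s₀) := by
    rw [mul_add]
    exact hmain.trans hFcard
  exact Nat.le_of_mul_le_mul_left h5 hm0

end Pool.Agent.Helper9.RS
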